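import Mathlib
import Pool.Agent.J4.H23.WN.Final

/-! Weinstein conjecture for contact forms on closed manifolds whose Reeb flow belongs to a smooth
action of a vector group `ℝ^m` by strict contact maps (for instance completely integrable Reeb
flows: `m = n + 1`, `dim M = 2n + 1`), such that the orbits of minimal dimension are nondegenerate
(for instance elliptic, hyperbolic and focus-focus), if
`m ≤ 3` or some orbit has dimension at most two. -/

open scoped Topology ContDiff Manifold
open Set Pool.Agent.H826R2.WStmt Pool.Agent.J4.H23.WN.Stmt

namespace Pool.Agent.Results.MP_e3ee0c_gt.AbelianSymmetries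

universe u v

theorem result
    {E : Type u} [NormedAddCommGroup E] [NormedSpace ℝ E] [FiniteDimensional ℝ E]
    -- a closed manifold `M` with a contact form `α` and its Reeb field `R`
    {M : Type v} [TopologicalSpace M] [ChartedSpace E M] [IsManifold 𝓘(ℝ, E) ∞ M]
    [T2Space M] [CompactSpace M] [Nonempty M]
    (α : M → Cov E) (hα : IsContact α) (R : M → E) (hR : IsReeb α R)
    -- a smooth action of `ℝ^m` by strict contact maps which contains the Reeb flow
    {m : ℕ} (A : ReebAction α R m)
    -- the orbits of minimal dimension are nondegenerate
    (hnd : ∀ x, A.IsMinimal x → A.IsNondegenerate x)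
    -- `m ≤ 3`, or some orbit has dimension at most two
    (hm : m ≤ 3 ∨ ∃ x, A.orbitDim x ≤ 2) :
    -- the orbits of minimal dimension are compact, and the Reeb flow has a periodic orbit
    (∀ x, A.IsMinimal x → IsCompact (range fun v => A.act v x)) ∧
      ∃ (c : ℝ → M) (T : ℝ), IsPeriodicOrbit R c T :=
  Pool.Agent.J4.H23.WN.exists_periodic_abelian hα hR A hnd hm

end Pool.Agent.Results.MP_e3ee0c_gt.AbelianSymmetries
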