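import Mathlib
import Pool.Agent.J4.H27.Wn.Defs
import Pool.Agent.J4.H27.Wn.Closed

/-! # The Weinstein conjecture on `N × Y` with `N` arbitrary, for Hamiltonians that depend on the
factor `Y` through one function `G`

All manifolds are finite-dimensional, Hausdorff, sigma-compact, without boundary. A two-form is a
family of bilinear forms on the tangent spaces; it is assumed smooth, alternating and nondegenerate,
but not closed. The definitions of `dif`, `SmoothTwo`, `IsLiouville`, `IsPeriodicIn`, `prodForm` are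
in `Pool/Agent/J4/H27/Wn/Defs.lean`. -/

open scoped Topology ContDiff Manifold
open Set Pool.Agent.J4.H27.Wn

noncomputable section

namespace Pool.Agent.Results.MP_e3ee0c_gt.CompositeHamiltonians

universe u

section

variable {E : Type*} [NormedAddCommGroup E] [NormedSpace ℝ E]
  {K : Type*} [TopologicalSpace K] (I : ModelWithCorners ℝ E K)
  {M : Type*} [TopologicalSpace M] [ChartedSpace K M]

/-- A smooth nondegenerate two-form. -/
structure NondegForm (w : M → E →L[ℝ] E →L[ℝ] ℝ) : Prop where
  smooth : SmoothTwo I w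
  alt : ∀ x v, w x v v = 0
  nondeg : ∀ x v, (∀ u, w x v u = 0) → v = 0

/-- `P` is compact, nonempty and consists of regular points of `h`. -/
structure CompactRegular (h : M → ℝ) (P : Set M) : Prop where
  compact : IsCompact P
  nonempty : P.Nonempty
  regular : ∀ x ∈ P, dif I h x ≠ 0

/-- The form is exact near `P`: there is a Liouville field `Z` on a neighbourhood `U` of `P`. -/
def ExactNear (w : M → E →L[ℝ] E →L[ℝ] ℝ) (P : Set M) : Prop :=
  ∃ (U : Set M) (Z : M → E), IsOpen U ∧ P ⊆ U ∧ IsLiouville I w U Z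

/-- `P` is of contact type: there is a Liouville field `Z` on a neighbourhood `U` of `P` which is
transverse to the level sets of `h` at the points of `P`. -/
def ContactType (w : M → E →L[ℝ] E →L[ℝ] ℝ) (h : M → ℝ) (P : Set M) : Prop :=
  ∃ (U : Set M) (Z : M → E), IsOpen U ∧ P ⊆ U ∧ IsLiouville I w U Z ∧ ∀ x ∈ P, dif I h x (Z x) ≠ 0

/-- The Weinstein conjecture holds for the function `h` and its restrictions to open sets `V`:
every compact nonempty regular level set `{h = c} ∩ V` of contact type contains a periodic orbit. -/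
def Weinstein (w : M → E →L[ℝ] E →L[ℝ] ℝ) (h : M → ℝ) : Prop :=
  ∀ (c : ℝ) (V : Set M), IsOpen V → CompactRegular I h ({x | h x = c} ∩ V) →
    ContactType I w h ({x | h x = c} ∩ V) → ∃ γ, IsPeriodicIn I w h ({x | h x = c} ∩ V) γ

end

variable {E : Type*} [NormedAddCommGroup E] [NormedSpace ℝ E] [FiniteDimensional ℝ E]
  {K : Type*} [TopologicalSpace K] (I : ModelWithCorners ℝ E K) [I.Boundaryless]
  {N : Type*} [TopologicalSpace N] [ChartedSpace K N] [IsManifold I ∞ N]
  [T2Space N] [SigmaCompactSpace N]
  {E' : Type u} [NormedAddCommGroup E'] [NormedSpace ℝ E'] [FiniteDimensional ℝ E']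
  {K' : Type*} [TopologicalSpace K'] (J : ModelWithCorners ℝ E' K') [J.Boundaryless]
  {Y : Type*} [TopologicalSpace Y] [ChartedSpace K' Y] [IsManifold J ∞ Y]
  [T2Space Y] [SigmaCompactSpace Y] [ConnectedSpace Y]

theorem result
    -- the two-forms on `N` and `Y`
    (w : N → E →L[ℝ] E →L[ℝ] ℝ) (hw : NondegForm I w)
    (w' : Y → E' →L[ℝ] E' →L[ℝ] ℝ) (hw' : NondegForm J w')
    (hpos : 0 < Module.finrank ℝ E')
    -- the function `G` on `Y`, and `H` on `N × Y` whose `y`-differential vanishes on `ker dG`
    (G : Y → ℝ) (hG : ContMDiff J 𝓘(ℝ, ℝ) ∞ G)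
    (H : N × Y → ℝ) (hH : ContMDiff (I.prod J) 𝓘(ℝ, ℝ) ∞ H)
    (hdep : ∀ (x : N) (y : Y) (v : E'), dif J G y v = 0 → dif J (fun y => H (x, y)) y v = 0)
    -- a compact nonempty regular level set
    (c : ℝ) (hc : CompactRegular (I.prod J) H {p | H p = c})
    -- `Y` is not compact, or `H(x, y)` is a function of `x` and `G(y)` and the form is exact near
    -- the level set
    (h1 : ¬ CompactSpace Y ∨ ((∀ x y y', G y = G y' → H (x, y) = H (x, y')) ∧
      ExactNear (I.prod J) (prodForm w w') {p | H p = c}))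
    -- `Y` is a surface, or the level set is of contact type and the Weinstein conjecture holds
    -- for `G` on `Y`
    (h2 : Module.finrank ℝ E' = 2 ∨
      (ContactType (I.prod J) (prodForm w w') H {p | H p = c} ∧ Weinstein J w' G)) :
    -- then there is a periodic orbit on the level set, in a slice `{x₀} × Y`
    ∃ (x₀ : N) (γ : ℝ → N × Y),
      IsPeriodicIn (I.prod J) (prodForm w w') H {p | H p = c} γ ∧ ∀ t, (γ t).1 = x₀ := by
  obtain ⟨b, hWG, hP⟩ : ∃ b : Prop, Wein J b w' G ∧
      IsPiece (I.prod J) b (prodForm w w') H {p | H p = c} := by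
    rcases h2 with hdim | ⟨hct, hW⟩
    · exact ⟨False, wein_surface hdim hw'.smooth hw'.alt hw'.nondeg hG False,
        hc.compact, hc.nonempty, ⟨c, univ, isOpen_univ, by simp⟩, hc.regular, fun h => h.elim⟩
    · refine ⟨True, ?_, hc.compact, hc.nonempty, ⟨c, univ, isOpen_univ, by simp⟩, hc.regular,
        fun _ => hct⟩
      intro P hP
      obtain ⟨d, V, hV, hPV⟩ := hP.piece
      have h3 := hW d V hV
      rw [← hPV] at h3
      exact h3 ⟨hP.compact, hP.nonempty, hP.regular⟩ (hP.contact trivial)
  by_cases hY : CompactSpace Y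
  · obtain ⟨hfac, U, Z, hU, hPU, hZ⟩ := h1.resolve_left (fun h => h hY)
    exact wein_closed hpos hw.alt hw'.smooth hw'.alt hw'.nondeg hH hG hdep hfac hWG hP hU hPU hZ
  · have hnc : ∀ C : Set Y, IsCompact C → IsOpen C → C = ∅ := by
      intro C hC hCo
      by_contra hne
      have h1 : C = univ := IsClopen.eq_univ ⟨hC.isClosed, hCo⟩ (nonempty_iff_ne_empty.2 hne)
      exact hY ⟨by rw [← h1]; exact hC⟩
    exact wein_noncompact hH hG hdep hWG hnc hP

end Pool.Agent.Results.MP_e3ee0c_gt.CompositeHamiltonians
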