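import Mathlib
import Pool.Agent.J4.H27.Wn.OnePar
import Pool.Agent.J4.H27.Wn.Momentum
import Pool.Agent.J4.H27.Wn.Mult

/-! # Periodic orbits of Hamiltonians which are functions of the momentum of a compact group and of
its orbits

Let a compact group `Γ` act smoothly on `(M, w)` with momentum map `J`. The Hamiltonian `H` is not
assumed to be invariant. It is compatible with `J` if, at each point `p` of `M`, each generator
`X_M(p)` of the action which is tangent to the fibre of `J` (that is `{J Y, J X}(p) = 0` for all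
`Y`) is tangent to the level set of `H` (that is `{H, J X}(p) = 0`). Equivalently the Hamiltonian
vector field of `H` at `p` lies in `T + T^w`, where `T` is the tangent space of the orbit `Γ p`.
This holds for the smooth functions `H = F(J, A)` of the momentum and of `Γ`-invariant functions
`A` (`compatible_of_factor`). Examples: left-invariant Hamiltonians on `T*Γ`, functions of the
momenta of the left and the right translations of `T*Γ`, invariant Hamiltonians plus arbitrary
functions of the momentum, and the functions `F(x, J(y))` on `N × Y`, where `N` is arbitrary (`Γ`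
acts on the second factor, with momentum map `J(y)`).

The theorem: a compact regular level set `Σ` of `H`, of contact type or not, contains a periodic
orbit which is an orbit of a circle in `Γ`, unless the conjugates of all circles in `Γ` fix points
of `Σ` with extremal momentum; and pairwise non-conjugate circles give different periodic orbits
if the stabilizers of the points of `Σ` are finite.

The proof maximizes (or minimizes) `(g, p) ↦ J (g a g⁻¹) p` on `Γ × Σ`. At a maximum, put
`b = g a g⁻¹`. As the pair is critical in the direction of `Γ`, the circle `b` preserves the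
momentum of `p`; so `H` is constant along the circle `b(s) p` by compatibility; so each point of the
circle is a maximum of `J b` on `Σ`, and the differentials of `J b` and `H` are proportional there.

The definitions of `dif`, `IsOrbit`, `IsPeriodicIn` are in `Pool/Agent/J4/H27/Wn/Defs.lean`, those
of `OneParam`, `conj` and `IsMomentum` in `Pool/Agent/J4/H27/Wn/OnePar.lean`. -/

open scoped Topology ContDiff Manifold
open Set Pool.Agent.J4.H27.Wn

noncomputable section

namespace Pool.Agent.Results.MP_e3ee0c_gt.MomentumIsotropy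

section

variable {E : Type*} [NormedAddCommGroup E] [NormedSpace ℝ E]
  {K : Type*} [TopologicalSpace K] (I : ModelWithCorners ℝ E K)
  {M : Type*} [TopologicalSpace M] [ChartedSpace K M]

/-- `P` is compact, nonempty and consists of regular points of `h`. -/
structure CompactRegular (h : M → ℝ) (P : Set M) : Prop where
  compact : IsCompact P
  nonempty : P.Nonempty
  regular : ∀ x ∈ P, dif I h x ≠ 0

/-- `H` is compatible with the momentum map `J`: if the derivatives of all the functions `J Y` along
the curve `r ↦ X(r) p` vanish at `r = 0`, then the derivative of `H` vanishes too. -/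
def Compatible {Γ : Type*} [Group Γ] [TopologicalSpace Γ] [MulAction Γ M]
    (J : OneParam Γ → M → ℝ) (H : M → ℝ) : Prop :=
  ∀ (p : M) (X : OneParam Γ), (∀ Y : OneParam Γ, deriv (fun r => J Y (X r • p)) 0 = 0) →
    deriv (fun r => H (X r • p)) 0 = 0

end

universe u

variable {E : Type u} [NormedAddCommGroup E] [NormedSpace ℝ E] [FiniteDimensional ℝ E]
  {K : Type*} [TopologicalSpace K] (I : ModelWithCorners ℝ E K) [I.Boundaryless]
  {M : Type*} [TopologicalSpace M] [ChartedSpace K M] [IsManifold I ∞ M]
  {Γ : Type*} [Group Γ] [TopologicalSpace Γ] [IsTopologicalGroup Γ] [CompactSpace Γ]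
  [MulAction Γ M] [ContinuousSMul Γ M]

omit [FiniteDimensional ℝ E] [I.Boundaryless] [IsManifold I ∞ M] [CompactSpace Γ]
  [ContinuousSMul Γ M] in
/-- Smooth functions of the momentum and of invariant functions are compatible. -/
theorem compatible_of_factor {w : M → E →L[ℝ] E →L[ℝ] ℝ} {J : OneParam Γ → M → ℝ}
    (hJ : IsMomentum I w J) {k m : ℕ} (X : Fin k → OneParam Γ) (A : Fin m → M → ℝ)
    (hAinv : ∀ (i : Fin m) (g : Γ) (p : M), A i (g • p) = A i p)
    (F : (Fin k → ℝ) × (Fin m → ℝ) → ℝ) (hF : ContDiff ℝ ∞ F) :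
    Compatible J (fun p => F (fun i => J (X i) p, fun i => A i p)) := by
  intro p Z hZ
  have h0 : Z 0 • p = p := by rw [OneParam.zero, one_smul]
  have hd : ∀ i, HasDerivAt (fun r => J (X i) (Z r • p)) 0 0 := by
    intro i
    obtain ⟨v, hv, -⟩ := hJ.flow Z p 0
    have h1 : HasDerivAt (fun r => J (X i) (Z r • p)) (dif I (J (X i)) (Z 0 • p) v) 0 := by
      have h2 := HasMFDerivAt.comp (0:ℝ) (g := J (X i)) (f := fun r : ℝ => Z r • p)
        ((hJ.smooth (X i)).mdifferentiableAt (by simp)).hasMFDerivAt hv
      have h3 : HasFDerivAt (fun s => J (X i) (Z s • p)) (show ℝ →L[ℝ] ℝ from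
          (mfderiv I 𝓘(ℝ, ℝ) (J (X i)) (Z 0 • p)).comp ((1 : ℝ →L[ℝ] ℝ).smulRight v)) 0 :=
        hasMFDerivAt_iff_hasFDerivAt.1 h2
      refine h3.hasDerivAt.congr_deriv ?_
      show (mfderiv I 𝓘(ℝ, ℝ) (J (X i)) (Z 0 • p)) ((1:ℝ) • v) = _
      rw [one_smul]
      rfl
    have h4 := hZ (X i)
    rw [h1.deriv] at h4
    rwa [h4] at h1
  have h1 : HasDerivAt (fun r => ((fun i => J (X i) (Z r • p), fun i => A i (Z r • p)) :
      (Fin k → ℝ) × (Fin m → ℝ))) (0, 0) 0 := by
    refine HasDerivAt.prodMk (hasDerivAt_pi.2 hd) ?_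
    have h2 : (fun r => (fun i => A i (Z r • p) : Fin m → ℝ)) = fun _ => fun i => A i p := by
      funext r i
      rw [hAinv]
    rw [h2]
    exact hasDerivAt_const _ _
  have h2 := ((hF.differentiable (by simp)) ((fun i => J (X i) (Z 0 • p),
    fun i => A i (Z 0 • p)) : (Fin k → ℝ) × (Fin m → ℝ))).hasFDerivAt.comp_hasDerivAt (0:ℝ) h1
  have h3 := h2.deriv
  have h4 : (((0 : Fin k → ℝ), (0 : Fin m → ℝ)) : (Fin k → ℝ) × (Fin m → ℝ)) = 0 := rfl
  rw [h4, map_zero] at h3
  exact h3

theorem exists_periodic
    -- a nondegenerate two-form `w` on `M`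
    (w : M → E →L[ℝ] E →L[ℝ] ℝ) (halt : ∀ x v, w x v v = 0)
    (hnd : ∀ x v, (∀ u, w x v u = 0) → v = 0)
    -- a smooth action of the compact group `Γ` with momentum map `J`
    (hsm : ∀ g : Γ, ContMDiff I I ∞ (fun p : M => g • p))
    (J : OneParam Γ → M → ℝ) (hJ : IsMomentum I w J)
    -- a Hamiltonian `H` compatible with `J`
    (H : M → ℝ) (hH : ContMDiff I 𝓘(ℝ, ℝ) ∞ H) (hcomp : Compatible J H)
    -- a compact nonempty regular level set
    (c : ℝ) (hc : CompactRegular I H {p | H p = c})
    -- a circle `a` in `Γ`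
    (a : OneParam Γ) (ha : ∀ p : M, a 1 • p = p)
    -- a conjugate of it which moves a point `p₀` of the level set, the momentum there being an
    -- upper or a lower bound of the momenta of the conjugates of `a` at the points of the level
    -- set which they fix (if there are any)
    (hmove : ∃ (g₀ : Γ) (p₀ : M), H p₀ = c ∧ (∃ s, a.conj g₀ s • p₀ ≠ p₀) ∧
      ((∀ (g : Γ) (p : M), H p = c → (∀ s, a.conj g s • p = p) →
          J (a.conj g) p ≤ J (a.conj g₀) p₀) ∨
        (∀ (g : Γ) (p : M), H p = c → (∀ s, a.conj g s • p = p) →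
          J (a.conj g₀) p₀ ≤ J (a.conj g) p))) :
    -- then the level set contains a periodic orbit, which is an orbit of a conjugate circle
    ∃ (g : Γ) (p : M) (x : ℝ → M), H p = c ∧ IsPeriodicIn I w H {p | H p = c} x ∧
      range x = range (fun s => a.conj g s • p) := by
  have hconj1 : ∀ (g : Γ) (p : M), a.conj g 1 • p = p := by
    intro g p
    rw [OneParam.conj_apply, mul_smul, mul_smul, ha, smul_inv_smul]
  -- the function to be maximized
  have hform : ∀ (g : Γ) (p : M), J (a.conj g) p = J a (g⁻¹ • p) := by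
    intro g p
    have h1 := hJ.equivariant g a (g⁻¹ • p)
    rw [smul_inv_smul] at h1
    exact h1
  have hcont : Continuous (fun z : Γ × M => J a (z.1⁻¹ • z.2)) :=
    (hJ.smooth a).continuous.comp (continuous_fst.inv.smul continuous_snd)
  have hcpt : IsCompact ((univ : Set Γ) ×ˢ {p : M | H p = c}) := isCompact_univ.prod hc.compact
  obtain ⟨q₀, hq₀⟩ := hc.nonempty
  have hne : ((univ : Set Γ) ×ˢ {p : M | H p = c}).Nonempty := ⟨(1, q₀), mem_univ _, hq₀⟩
  obtain ⟨g₀, p₀, hp₀, hs₀, hbd⟩ := hmove
  -- an extremal pair which is not fixed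
  obtain ⟨g, p, hp, hmv, hext⟩ : ∃ (g : Γ) (p : M), H p = c ∧ (∃ s, a.conj g s • p ≠ p) ∧
      ((∀ (g' : Γ) (q : M), H q = c → J (a.conj g') q ≤ J (a.conj g) p) ∨
      (∀ (g' : Γ) (q : M), H q = c → J (a.conj g) p ≤ J (a.conj g') q)) := by
    rcases hbd with hbd | hbd
    · obtain ⟨⟨g₁, p₁⟩, ⟨-, hp₁⟩, hmax⟩ := hcpt.exists_isMaxOn hne hcont.continuousOn
      have hmax' : ∀ (g : Γ) (q : M), H q = c → J (a.conj g) q ≤ J (a.conj g₁) p₁ := by
        intro g q hq
        rw [hform, hform]
        exact hmax (show (g, q) ∈ (univ : Set Γ) ×ˢ {p : M | H p = c} from ⟨mem_univ _, hq⟩)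
      by_cases h1 : ∃ s, a.conj g₁ s • p₁ ≠ p₁
      · exact ⟨g₁, p₁, hp₁, h1, Or.inl hmax'⟩
      · push Not at h1
        exact ⟨g₀, p₀, hp₀, hs₀, Or.inl fun g' q hq =>
          (hmax' g' q hq).trans (hbd g₁ p₁ hp₁ h1)⟩
    · obtain ⟨⟨g₂, p₂⟩, ⟨-, hp₂⟩, hmin⟩ := hcpt.exists_isMinOn hne hcont.continuousOn
      have hmin' : ∀ (g : Γ) (q : M), H q = c → J (a.conj g₂) p₂ ≤ J (a.conj g) q := by
        intro g q hq
        rw [hform, hform]
        exact hmin (show (g, q) ∈ (univ : Set Γ) ×ˢ {p : M | H p = c} from ⟨mem_univ _, hq⟩)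
      by_cases h2 : ∃ s, a.conj g₂ s • p₂ ≠ p₂
      · exact ⟨g₂, p₂, hp₂, h2, Or.inr hmin'⟩
      · push Not at h2
        exact ⟨g₀, p₀, hp₀, hs₀, Or.inr fun g' q hq =>
          (hbd g₂ p₂ hp₂ h2).trans (hmin' g' q hq)⟩
  obtain ⟨x, hx, hrange⟩ := periodic_of_extremal (I := I) halt hnd hJ hsm hH hcomp
    (c := c) hc.regular (b := a.conj g) (hconj1 g) hp (by
      rcases hext with hext | hext
      · left
        intro g' q hq
        rw [OneParam.conj_conj]
        exact hext _ q hq
      · right
        intro g' q hq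
        rw [OneParam.conj_conj]
        exact hext _ q hq) hmv
  exact ⟨g, p, x, hp, hx, hrange⟩

/-- A conjugate circle which moves a point `p₀` of the level set `{H = c}`, the momentum there being
an upper or a lower bound of the momenta of the conjugates of `a` at the points of the level set
which they fix (if there are any). This holds if no conjugate of `a` fixes a point of the level set,
or if the momenta of the conjugates at the points fixed by them are all equal (for instance zero,
for lifted actions on cotangent bundles) and some conjugate moves a point. -/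
def Moves (J : OneParam Γ → M → ℝ) (H : M → ℝ) (c : ℝ) (a : OneParam Γ) : Prop :=
  ∃ (g₀ : Γ) (p₀ : M), H p₀ = c ∧ (∃ s, a.conj g₀ s • p₀ ≠ p₀) ∧
    ((∀ (g : Γ) (p : M), H p = c → (∀ s, a.conj g s • p = p) →
        J (a.conj g) p ≤ J (a.conj g₀) p₀) ∨
      (∀ (g : Γ) (p : M), H p = c → (∀ s, a.conj g s • p = p) →
        J (a.conj g₀) p₀ ≤ J (a.conj g) p))

theorem result
    -- a nondegenerate two-form `w` on `M`
    (w : M → E →L[ℝ] E →L[ℝ] ℝ) (halt : ∀ x v, w x v v = 0)
    (hnd : ∀ x v, (∀ u, w x v u = 0) → v = 0)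
    -- a smooth action of the compact group `Γ` with momentum map `J`
    (hsm : ∀ g : Γ, ContMDiff I I ∞ (fun p : M => g • p))
    (J : OneParam Γ → M → ℝ) (hJ : IsMomentum I w J)
    -- a Hamiltonian `H` compatible with `J`
    (H : M → ℝ) (hH : ContMDiff I 𝓘(ℝ, ℝ) ∞ H) (hcomp : Compatible J H)
    -- a compact nonempty regular level set
    (c : ℝ) (hc : CompactRegular I H {p | H p = c}) :
    -- if the conjugates of a circle `a` in `Γ` do not fix the level set in the sense above, then
    -- the level set contains a periodic orbit which is an orbit of a conjugate of `a`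
    (∀ a : OneParam Γ, (∀ p : M, a 1 • p = p) → Moves J H c a →
      ∃ (g : Γ) (p : M) (x : ℝ → M), H p = c ∧ IsPeriodicIn I w H {p | H p = c} x ∧
        range x = range (fun s => a.conj g s • p)) ∧
    -- if the stabilizers of the points of the level set are finite, then pairwise non-conjugate
    -- circles `a i` in `Γ` give pairwise different periodic orbits
    ((∀ p : M, H p = c → (MulAction.stabilizer Γ p : Set Γ).Finite) →
      ∀ (ι : Type) (a : ι → OneParam Γ), (∀ i, ∀ p : M, a i 1 • p = p) → (∀ i, ∃ s, a i s ≠ 1) →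
        (∀ i j (g : Γ), i ≠ j → range (a i) ≠ range ((a j).conj g)) →
        ∃ x : ι → ℝ → M, (∀ i, IsPeriodicIn I w H {p | H p = c} (x i)) ∧
          ∀ i j, i ≠ j → range (x i) ≠ range (x j)) := by
  refine ⟨fun a ha hmove => exists_periodic I w halt hnd hsm J hJ H hH hcomp c hc a ha hmove,
    fun hfin ι a ha hne hconj => ?_⟩
  obtain ⟨q₀, hq₀⟩ := hc.nonempty
  have hmv : ∀ i (g : Γ) (p : M), H p = c → ¬ ∀ s, (a i).conj g s • p = p := by
    intro i g p hp h
    obtain ⟨s, hs⟩ := hne i
    apply hs
    have h1 := OneParam.eq_one_of_finite ((a i).conj g) _ (hfin p hp) h s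
    rw [OneParam.conj_apply, mul_inv_eq_one] at h1
    exact mul_eq_left.1 h1
  have hex : ∀ i, ∃ (g : Γ) (p : M) (x : ℝ → M), H p = c ∧
      IsPeriodicIn I w H {p | H p = c} x ∧ range x = range (fun s => (a i).conj g s • p) := by
    intro i
    have h1 := hmv i 1 q₀ hq₀
    push Not at h1
    exact exists_periodic I w halt hnd hsm J hJ H hH hcomp c hc (a i) (ha i)
      ⟨1, q₀, hq₀, h1, Or.inl fun g p hp h => absurd h (hmv i g p hp)⟩
  choose g p x hp hx hr using hex
  refine ⟨x, hx, fun i j hij h => ?_⟩
  rw [hr i, hr j] at h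
  have h1 := range_eq_of_orbit_eq ((a i).conj (g i)) ((a j).conj (g j)) (p i) (p j)
    (hfin _ (hp i)) h
  apply hconj i j ((g i)⁻¹ * g j) hij
  have h2 : ∀ (X : OneParam Γ) (γ : Γ), range (X.conj γ) = (fun z => γ * z * γ⁻¹) '' range X := by
    intro X γ
    rw [← range_comp]
    rfl
  rw [← OneParam.conj_conj, h2, ← h1, ← h2, OneParam.conj_conj, inv_mul_cancel]
  have h3 : (a i).conj 1 = a i := by
    ext t
    simp [OneParam.conj_apply]
  rw [h3]

end Pool.Agent.Results.MP_e3ee0c_gt.MomentumIsotropy
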