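import Mathlib
import Pool.Agent.J4.H27.Wn.Defs
import Pool.Agent.J4.H62.We.Main

/-! # The Weinstein conjecture on `N × Y`, `N` arbitrary, `Y` a surface, for Hamiltonians
`H(x, y) = Φ(F(x), y)` which depend on the factor `N` through one function `F`

All manifolds are finite-dimensional, Hausdorff, sigma-compact, without boundary. A two-form is a
family of bilinear forms on the tangent spaces; it is assumed smooth, alternating and nondegenerate,
but not closed. The definitions of `dif`, `SmoothTwo`, `IsLiouville`, `IsPeriodicIn`, `prodForm` are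
in `Pool/Agent/J4/H27/Wn/Defs.lean`.

Nothing is assumed on `N`, on `F` or on the flow of `F`, which may have no periodic orbit at all.
The `Y`-component of an orbit moves on a component of the curve `{Φ(s, ·) = c}`, `s` the constant
value of `F`; the `N`-component follows the flow of `F` with the variable speed `∂Φ/∂s`. The theorem
produces a closed curve `C` along which the total elapsed time `τ(C) = ∮ ∂Φ/∂s dt` vanishes.
Idea of the proof: if there is none, the sign of `τ(C)` extends to a locally constant function on the
surface `S = {(s, y) : Φ(s, y) = c}`, separatrices included: near a separatrix `τ` tends to `±∞` with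
the sign of `∂Φ/∂s` at the saddle points, and for contact type level sets this sign is the same at
all the saddle points of one separatrix, because a primitive of the two-form would otherwise
increase without bound along the flow of `F`. At a point of `S` where the height `s` has a local
extremum the sign is that of `∂Φ/∂s`. A covering space argument for the map from `ℝ × Y` to the
circle defined by a clopen part of `S` shows that the sign of `∂Φ/∂s` changes between these points. -/

open scoped Topology ContDiff Manifold
open Set Pool.Agent.J4.H27.Wn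

noncomputable section

namespace Pool.Agent.Results.MP_e3ee0c_gt.SingleFunctionFactor

universe u v

section

variable {E : Type*} [NormedAddCommGroup E] [NormedSpace ℝ E]
  {K : Type*} [TopologicalSpace K] (I : ModelWithCorners ℝ E K)
  {M : Type*} [TopologicalSpace M] [ChartedSpace K M]

/-- A smooth nondegenerate two-form. -/
structure NondegForm (w : M → E →L[ℝ] E →L[ℝ] ℝ) : Prop where
  smooth : SmoothTwo I w
  alt : ∀ x v, w x v v = 0
  nondeg : ∀ x v, (∀ u, w x v u = 0) → v = 0

/-- `P` is compact, nonempty and consists of regular points of `h`. -/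
structure CompactRegular (h : M → ℝ) (P : Set M) : Prop where
  compact : IsCompact P
  nonempty : P.Nonempty
  regular : ∀ x ∈ P, dif I h x ≠ 0

/-- `P` is of contact type: there is a Liouville field `Z` on a neighbourhood `U` of `P` which is
transverse to the level sets of `h` at the points of `P`. -/
def ContactType (w : M → E →L[ℝ] E →L[ℝ] ℝ) (h : M → ℝ) (P : Set M) : Prop :=
  ∃ (U : Set M) (Z : M → E), IsOpen U ∧ P ⊆ U ∧ IsLiouville I w U Z ∧ ∀ x ∈ P, dif I h x (Z x) ≠ 0

end

variable {E : Type u} [NormedAddCommGroup E] [NormedSpace ℝ E] [FiniteDimensional ℝ E]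
  {K : Type*} [TopologicalSpace K] (I : ModelWithCorners ℝ E K) [I.Boundaryless]
  {N : Type*} [TopologicalSpace N] [ChartedSpace K N] [IsManifold I ∞ N]
  [T2Space N] [SigmaCompactSpace N]
  {E' : Type v} [NormedAddCommGroup E'] [NormedSpace ℝ E'] [FiniteDimensional ℝ E']
  {K' : Type*} [TopologicalSpace K'] (J : ModelWithCorners ℝ E' K') [J.Boundaryless]
  {Y : Type*} [TopologicalSpace Y] [ChartedSpace K' Y] [IsManifold J ∞ Y]
  [T2Space Y] [SigmaCompactSpace Y] [ConnectedSpace Y]

theorem result
    -- the two-forms on `N` and on the surface `Y`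
    (w : N → E →L[ℝ] E →L[ℝ] ℝ) (hw : NondegForm I w)
    (w' : Y → E' →L[ℝ] E' →L[ℝ] ℝ) (hw' : NondegForm J w')
    (hdim : Module.finrank ℝ E' = 2)
    -- the Hamiltonian `H(x, y) = Φ(F(x), y)`
    (F : N → ℝ) (hF : ContMDiff I 𝓘(ℝ, ℝ) ∞ F)
    (Φ : ℝ × Y → ℝ) (hΦ : ContMDiff (𝓘(ℝ, ℝ).prod J) 𝓘(ℝ, ℝ) ∞ Φ)
    (H : N × Y → ℝ) (hH : H = fun p => Φ (F p.1, p.2))
    -- a compact nonempty regular level set
    (c : ℝ) (hc : CompactRegular (I.prod J) H {p | H p = c})
    -- `Y` is not compact, or the projection of the level set is not the whole of `Y`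
    (hY : ¬ CompactSpace Y ∨ ∃ y, ∀ x, H (x, y) ≠ c)
    -- the level set is of contact type, or, for each `x`, `∂Φ/∂s` has the same sign at all the
    -- critical points of `Φ(F(x), ·)` on the level `c`
    (hs : ContactType (I.prod J) (prodForm w w') H {p | H p = c} ∨
      ∀ x y y', H (x, y) = c → H (x, y') = c →
        dif J (fun y => H (x, y)) y = 0 → dif J (fun y => H (x, y)) y' = 0 →
        0 < deriv (fun s => Φ (s, y)) (F x) * deriv (fun s => Φ (s, y')) (F x)) :
    -- there is a periodic orbit on the level set: either in a slice `{x₀} × Y` over a critical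
    -- point `x₀` of `F`,
    (∃ (x₀ : N) (γ : ℝ → N × Y), dif I F x₀ = 0 ∧ (∀ t, (γ t).1 = x₀) ∧
      IsPeriodicIn (I.prod J) (prodForm w w') H {p | H p = c} γ) ∨
    -- or all the orbits through the points of `{F = F(x₀)} × {y₀}` are periodic of the same period
    (∃ (x₀ : N) (y₀ : Y) (T : ℝ), 0 < T ∧ H (x₀, y₀) = c ∧ ∀ x, F x = F x₀ →
      ∃ γ : ℝ → N × Y, γ 0 = (x, y₀) ∧ (∀ t, γ (t + T) = γ t) ∧
        IsPeriodicIn (I.prod J) (prodForm w w') H {p | H p = c} γ) := by
  subst hH
  obtain ⟨y₀, hy₀⟩ : ∃ y, ∀ x, Φ (F x, y) ≠ c := by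
    rcases hY with hY | hY
    · by_contra hcon
      push Not at hcon
      apply hY
      have h1 : Prod.snd '' {p : N × Y | Φ (F p.1, p.2) = c} = univ := by
        rw [eq_univ_iff_forall]
        intro y
        obtain ⟨x, hx⟩ := hcon y
        exact ⟨(x, y), hx, rfl⟩
      have h2 : IsCompact (Prod.snd '' {p : N × Y | Φ (F p.1, p.2) = c}) :=
        hc.compact.image continuous_snd
      rw [h1] at h2
      exact ⟨h2⟩
    · exact hY
  exact Pool.Agent.J4.H62.We.main hw.smooth hw.alt hw.nondeg hdim hw'.smooth hw'.alt hw'.nondeg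
    hF hΦ hc.compact hc.nonempty hc.regular hy₀ hs

end Pool.Agent.Results.MP_e3ee0c_gt.SingleFunctionFactor
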